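import Pool.Agent.W523.LV.Stmts2

/-!
# LV-ABEL: summation by parts for block forcings
-/

set_option autoImplicit false

open Finset

namespace Pool.Agent.W577.LV

open Pool.Agent.H96R3.BC (vv UU CC mem_CC vv_pow UU_pow vv_nonneg UU_nonneg UU_sq)
open Pool.Agent.W523.LV

theorem b_mono {b : ℕ → ℕ} {L : ℕ} (hb : ∀ i, i < L → b i < b (i + 1)) :
    ∀ j, j ≤ L → ∀ i, i ≤ j → b i ≤ b j := by
  intro j
  induction j with
  | zero => intro _ i hi; have : i = 0 := by omega
            subst this; exact le_rfl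
  | succ j ih =>
    intro hj i hi
    rcases Nat.lt_or_ge i (j + 1) with h | h
    · have h1 := ih (by omega) i (by omega)
      have h2 := hb j (by omega)
      omega
    · have : i = j + 1 := by omega
      subst this; exact le_rfl

/-- the number of primes of a block -/
noncomputable def cb (b : ℕ → ℕ) (i : ℕ) : ℝ := (((Ioc (b i) (b (i + 1))).filter Nat.Prime).card : ℝ)

theorem blk_eq {b : ℕ → ℕ} {L : ℕ} (hb : ∀ i, i < L → b i < b (i + 1)) (m : ℕ → ℝ) {i k : ℕ}
    (hi : i < L) (hk : b i < k) (hk' : k ≤ b (i + 1)) :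
    blk b L m k = if k.Prime then (m (b (i + 1)) - m (b i)) / cb b i else 0 := by
  unfold blk
  rw [Finset.sum_eq_single i]
  · by_cases hp : k.Prime
    · rw [if_pos ⟨hp, hk, hk'⟩, if_pos hp]; rfl
    · rw [if_neg (fun h => hp h.1), if_neg hp]
  · intro j hj hji
    rw [if_neg]
    rintro ⟨-, h1, h2⟩
    rw [Finset.mem_range] at hj
    rcases Nat.lt_or_gt_of_ne hji with h | h
    · have := b_mono hb i (by omega) (j + 1) (by omega)
      omega
    · have := b_mono hb j (by omega) (i + 1) (by omega)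
      omega
  · intro h
    exact absurd (Finset.mem_range.2 hi) h

theorem sum_blk {b : ℕ → ℕ} {L : ℕ} (hb : ∀ i, i < L → b i < b (i + 1)) (m : ℕ → ℝ) {i n : ℕ}
    (hi : i < L) (hn' : n ≤ b (i + 1)) :
    ∑ k ∈ Ioc (b i) n, blk b L m k =
      (((Ioc (b i) n).filter Nat.Prime).card : ℝ) * ((m (b (i + 1)) - m (b i)) / cb b i) := by
  have h1 : ∑ k ∈ Ioc (b i) n, blk b L m k =
      ∑ k ∈ Ioc (b i) n, if k.Prime then (m (b (i + 1)) - m (b i)) / cb b i else 0 := by
    apply Finset.sum_congr rfl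
    intro k hk
    rw [Finset.mem_Ioc] at hk
    exact blk_eq hb m hi hk.1 (hk.2.trans hn')
  rw [h1, ← Finset.sum_filter, Finset.sum_const, nsmul_eq_mul]

theorem cb_pos {b : ℕ → ℕ} {L : ℕ}
    (hp : ∀ i, i < L → ∃ p : ℕ, p.Prime ∧ b i < p ∧ p ≤ b (i + 1)) {i : ℕ} (hi : i < L) :
    0 < cb b i := by
  obtain ⟨p, h1, h2, h3⟩ := hp i hi
  unfold cb
  have : 0 < ((Ioc (b i) (b (i + 1))).filter Nat.Prime).card := by
    apply Finset.card_pos.2
    exact ⟨p, Finset.mem_filter.2 ⟨Finset.mem_Ioc.2 ⟨h2, h3⟩, h1⟩⟩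
  exact_mod_cast this

theorem sum_blk_full {b : ℕ → ℕ} {L : ℕ} (hb : ∀ i, i < L → b i < b (i + 1))
    (hp : ∀ i, i < L → ∃ p : ℕ, p.Prime ∧ b i < p ∧ p ≤ b (i + 1)) (m : ℕ → ℝ) {i : ℕ}
    (hi : i < L) : ∑ k ∈ Ioc (b i) (b (i + 1)), blk b L m k = m (b (i + 1)) - m (b i) := by
  rw [sum_blk hb m hi le_rfl]
  have h1 := cb_pos hp hi
  have h2 : (((Ioc (b i) (b (i + 1))).filter Nat.Prime).card : ℝ) = cb b i := rfl
  rw [h2]
  field_simp

theorem sum_Ioc_split (f : ℕ → ℝ) {a b c : ℕ} (h1 : a ≤ b) (h2 : b ≤ c) :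
    ∑ k ∈ Ioc a c, f k = ∑ k ∈ Ioc a b, f k + ∑ k ∈ Ioc b c, f k := by
  rw [← Finset.sum_union]
  · rw [Finset.Ioc_union_Ioc_eq_Ioc h1 h2]
  · rw [Finset.disjoint_left]
    intro x hx hx'
    rw [Finset.mem_Ioc] at hx hx'
    omega

theorem itp_b {b : ℕ → ℕ} {L : ℕ} (hb : ∀ i, i < L → b i < b (i + 1))
    (hp : ∀ i, i < L → ∃ p : ℕ, p.Prime ∧ b i < p ∧ p ≤ b (i + 1)) (m : ℕ → ℝ) :
    ∀ i, i ≤ L → itp b L m (b i) = m (b i) := by
  intro i
  induction i with
  | zero => intro _; unfold itp; simp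
  | succ i ih =>
    intro hi
    have h1 := ih (by omega)
    unfold itp at h1 ⊢
    rw [sum_Ioc_split _ (b_mono hb i (by omega) 0 (by omega))
      (b_mono hb (i + 1) (by omega) i (by omega)), ← add_assoc, h1,
      sum_blk_full hb hp m (by omega)]
    ring

theorem itp_mid {b : ℕ → ℕ} {L : ℕ} (hb : ∀ i, i < L → b i < b (i + 1))
    (hp : ∀ i, i < L → ∃ p : ℕ, p.Prime ∧ b i < p ∧ p ≤ b (i + 1)) (m : ℕ → ℝ) (i n : ℕ)
    (hi : i < L) (hn : b i ≤ n) (hn' : n ≤ b (i + 1)) : ∃ θ : ℝ, 0 ≤ θ ∧ θ ≤ 1 ∧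
      itp b L m n = (1 - θ) * m (b i) + θ * m (b (i + 1)) := by
  have hc := cb_pos hp hi
  refine ⟨(((Ioc (b i) n).filter Nat.Prime).card : ℝ) / cb b i, by positivity, ?_, ?_⟩
  · rw [div_le_one hc]
    unfold cb
    have : ((Ioc (b i) n).filter Nat.Prime).card ≤
        ((Ioc (b i) (b (i + 1))).filter Nat.Prime).card := by
      apply Finset.card_le_card
      apply Finset.filter_subset_filter
      exact Finset.Ioc_subset_Ioc le_rfl hn'
    exact_mod_cast this
  · have h1 := itp_b hb hp m i (by omega)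
    unfold itp at h1 ⊢
    rw [sum_Ioc_split _ (b_mono hb i (by omega) 0 (by omega)) hn, ← add_assoc, h1,
      sum_blk hb m hi hn']
    ring

theorem abel (s Φ : ℕ → ℝ) (M0 : ℝ) (a : ℕ) : ∀ c, a ≤ c →
    ∑ n ∈ Ioc a c, s n * Φ n = (M0 + ∑ k ∈ Ioc a c, s k) * Φ c - M0 * Φ a -
      ∑ n ∈ Ico a c, (M0 + ∑ k ∈ Ioc a n, s k) * (Φ (n + 1) - Φ n) := by
  intro c hc
  induction c, hc using Nat.le_induction with
  | base => simp
  | succ c hc ih =>
    rw [Finset.sum_Ioc_succ_top (by omega), Finset.sum_Ioc_succ_top (by omega),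
      Finset.sum_Ico_succ_top (by omega), ih]
    ring

theorem vv_eq_UU {Q j₀ J : ℕ} (hQ : 1 ≤ Q) : vv Q j₀ (J ^ (2 * Q)) = UU j₀ J := by
  have h4 : 4 * Q ≠ 0 := by omega
  have h1 : vv Q j₀ (J ^ (2 * Q)) ^ (4 * Q) = UU j₀ J ^ (4 * Q) := by
    rw [vv_pow hQ, UU_pow]
    push_cast
    rfl
  exact (pow_left_inj₀ (vv_nonneg _ _ _) (UU_nonneg _ _) h4).1 h1

theorem UU_lt {j₀ J : ℕ} (hj : 1 ≤ j₀) : UU j₀ J < UU j₀ (J + 1) := by
  have h1 : UU j₀ J ^ 2 < UU j₀ (J + 1) ^ 2 := by
    rw [UU_sq, UU_sq]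
    have : (0 : ℝ) < j₀ := by exact_mod_cast hj
    apply div_lt_div_of_pos_right _ this
    push_cast
    linarith
  exact lt_of_pow_lt_pow_left₀ 2 (UU_nonneg _ _) h1

open Polynomial in
theorem taskAbel : TaskAbel := by
  intro Q j₀ J L b hQ hj hJ hb0 hbL hb hp m
  have hCC : CC Q J = Ioc (b 0) (b L) := by
    ext n
    rw [mem_CC, Finset.mem_Ioc, hb0, hbL]
  refine ⟨fun i n => itp_mid hb hp m i n, ?_, ?_, ?_⟩
  · have h1 := itp_b hb hp m L le_rfl
    unfold itp at h1
    rw [hCC, ← hb0, ← hbL]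
    linarith only [h1]
  · intro n hn
    unfold blk at hn
    obtain ⟨i, hi, h1⟩ := Finset.exists_ne_zero_of_sum_ne_zero hn
    rw [Finset.mem_range] at hi
    by_cases h2 : n.Prime ∧ b i < n ∧ n ≤ b (i + 1)
    · refine ⟨h2.1, ?_⟩
      rw [hCC, Finset.mem_Ioc]
      have h3 := b_mono hb i (by omega) 0 (by omega)
      have h4 := b_mono hb L le_rfl (i + 1) (by omega)
      omega
    · rw [if_neg h2] at h1
      exact absurd rfl h1
  · intro hmom P hP
    set D : ℝ := UU j₀ (J + 1) - UU j₀ J with hD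
    have hDpos : 0 < D := by
      have := UU_lt (J := J) hj
      linarith only [this, hD]
    set R : ℝ[X] := C 2 * P + X * derivative P with hR
    set q : ℝ[X] := R.comp (C (UU j₀ J) + C D * X) with hq
    have hRdeg : R.natDegree ≤ P.natDegree := by
      rw [hR]
      apply Polynomial.natDegree_add_le_of_degree_le
      · exact Polynomial.natDegree_C_mul_le _ _
      · rcases Nat.eq_zero_or_pos P.natDegree with h | h
        · rw [Polynomial.eq_C_of_natDegree_eq_zero h]
          simp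
        · calc (X * derivative P).natDegree ≤ 1 + (derivative P).natDegree := by
                refine (Polynomial.natDegree_mul_le).trans ?_
                simp
            _ ≤ 1 + (P.natDegree - 1) := by
                have := Polynomial.natDegree_derivative_le P
                omega
            _ = P.natDegree := by omega
    have hqdeg : q.natDegree < 4 * Q + 4 := by
      have h1 : q.natDegree ≤ R.natDegree * (C (UU j₀ J) + C D * X).natDegree :=
        Polynomial.natDegree_comp_le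
      have h2 : (C (UU j₀ J) + C D * X : ℝ[X]).natDegree ≤ 1 := by
        apply Polynomial.natDegree_add_le_of_degree_le
        · simp
        · exact (Polynomial.natDegree_C_mul_le _ _).trans (by simp)
      have h3 : R.natDegree * (C (UU j₀ J) + C D * X : ℝ[X]).natDegree ≤ R.natDegree * 1 :=
        Nat.mul_le_mul_left _ h2
      omega
    have hqe : ∀ v : ℝ, q.eval (tau j₀ J v) = 2 * P.eval v + v * (derivative P).eval v := by
      intro v
      have h1 : UU j₀ J + D * tau j₀ J v = v := by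
        unfold tau
        rw [← hD]
        field_simp
        ring
      rw [hq, Polynomial.eval_comp]
      simp only [Polynomial.eval_add, Polynomial.eval_mul, Polynomial.eval_C, Polynomial.eval_X]
      rw [h1, hR]
      simp
    have hgw : ∀ n, gw Q j₀ J q n = (vv Q j₀ (n + 1)) ^ 2 * P.eval (vv Q j₀ (n + 1)) -
        (vv Q j₀ n) ^ 2 * P.eval (vv Q j₀ n) := by
      intro n
      unfold gw
      have h1 : ∀ v : ℝ, HasDerivAt (fun v => v ^ 2 * P.eval v) (v * q.eval (tau j₀ J v)) v := by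
        intro v
        have h2 : HasDerivAt (fun v : ℝ => v ^ 2 * P.eval v)
            (((2 : ℕ) : ℝ) * v ^ (2 - 1) * P.eval v + v ^ 2 * (derivative P).eval v) v :=
          (hasDerivAt_pow 2 v).mul (P.hasDerivAt v)
        rw [hqe]
        have h3 : ((2 : ℕ) : ℝ) * v ^ (2 - 1) * P.eval v + v ^ 2 * (derivative P).eval v =
            v * (2 * P.eval v + v * (derivative P).eval v) := by
          push_cast
          simp only [Nat.add_one_sub_one, pow_one]
          ring
        rw [← h3]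
        exact h2
      rw [intervalIntegral.integral_eq_sub_of_hasDerivAt (fun v _ => h1 v)]
      apply Continuous.intervalIntegrable
      have : (fun v => v * q.eval (tau j₀ J v)) =
          fun v => v * (2 * P.eval v + v * (derivative P).eval v) := by
        funext v; rw [hqe]
      rw [this]
      fun_prop
    have hab := abel (blk b L m) (fun n => (vv Q j₀ n) ^ 2 * P.eval (vv Q j₀ n)) (m (b 0)) (b 0)
      (b L) (b_mono hb L le_rfl 0 (by omega))
    have hz := hmom q hqdeg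
    rw [← hb0, ← hbL] at hz
    have hz' : ∑ n ∈ Ico (b 0) (b L), (m (b 0) + ∑ k ∈ Ioc (b 0) n, blk b L m k) *
        ((vv Q j₀ (n + 1)) ^ 2 * P.eval (vv Q j₀ (n + 1)) -
          (vv Q j₀ n) ^ 2 * P.eval (vv Q j₀ n)) = 0 := by
      rw [← hz]
      apply Finset.sum_congr rfl
      intro n _
      rw [hgw]
      rfl
    have hL := itp_b hb hp m L le_rfl
    unfold itp at hL
    rw [hz', hL, sub_zero] at hab
    rw [hCC]
    have h5 : ∑ p ∈ Ioc (b 0) (b L), blk b L m p * (vv Q j₀ p) ^ 2 * P.eval (vv Q j₀ p) =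
        ∑ n ∈ Ioc (b 0) (b L), blk b L m n * ((vv Q j₀ n) ^ 2 * P.eval (vv Q j₀ n)) :=
      Finset.sum_congr rfl (fun n _ => by ring)
    rw [h5, hab, hb0, hbL, vv_eq_UU hQ, vv_eq_UU hQ]
    ring

end Pool.Agent.W577.LV
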